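import Mathlib
import Pool.Agent.X34.E.E26
import Pool.Agent.X34.E.E4

set_option autoImplicit false

/-!
# Prime pairs in all windows around a positive proportion of the integers

The pairs of primes `p ≡ a (mod M)`, `p + j M` that are consecutive primes, `1 ≤ j ≤ 106`, are not only as frequent as
the sieve of dimension `45` allows: for a positive proportion of the integers `n`, ALL intervals around `n` of a length
between `K (log n)^45` and `n` contain at least the proportion `c / (log n)^45` of them, with the same `j`. For `M` a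
common multiple of `d` and `q` these are pairs with a difference divisible by `d` in a class modulo `q`.

If moreover all the numbers `p + (g'' - g) M`, `g''` in a set `G` of 45 multipliers, are to be free of small prime
factors, both bounds of this order hold in all these intervals.

Proof: the count of the right order for 45 forms (engine E of helper34, files `Pool.Agent.X34.E`, which uses
the starting library's theorem for 45 forms) and the passage to all windows (starting library,
`Pool.Agent.W123.RU.sieve_regular`).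
-/

namespace Pool.Agent.Results.MP_92ef0c_nt.AllWindows

/-- `p ≡ a (mod M)` is a prime and `p + h` is the next prime. -/
def Pair (M a h p : ℕ) : Prop :=
  p ≡ a [MOD M] ∧ p.Prime ∧ (p + h).Prime ∧ ∀ m : ℕ, p < m → m < p + h → ¬ m.Prime

/-- `p` and `p + (g' - g) M` form such a pair, and the numbers `p + (g'' - g) M`, `g''` in `G`, have no prime factor
`≤ y`. -/
def SiftedPair (M a : ℕ) (G : Finset ℕ) (g g' : ℕ) (y : ℝ) (p : ℕ) : Prop :=
  Pair M a ((g' - g) * M) p ∧
    ∀ g'' ∈ G, ∀ l : ℕ, l.Prime → (l : ℝ) ≤ y → ¬ (l : ℤ) ∣ (p : ℤ) + ((g'' : ℤ) - g) * M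

/-- the number of the elements of the interval `(u, v]` with the property `A` -/
noncomputable def count (A : ℕ → Prop) (u v : ℕ) : ℕ := Set.ncard {p : ℕ | u < p ∧ p ≤ v ∧ A p}

/-- (1) For every even `M ≥ 2` and every `a` prime to `M` there are `c, K, κ > 0` such that for all large `X` there is
`1 ≤ j ≤ 106` for which at least `κ X` of the integers `n` in `(X, 4 X]` have the property: every interval `(u, v]` with
`u ≤ n ≤ v` and `K (log X)^45 ≤ v - u ≤ n` contains at least `c (v - u) / (log X)^45` primes `p ≡ a (mod M)` such that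
`p + j M` is the next prime.

(2) There is `k > 0` such that for all `M ≥ 1`, all `a` prime to `M` and all sets `G` of 45 natural numbers that
miss a class modulo every prime not dividing `M` there are `c, C, K, κ > 0` such that for all large `X` there are
`g < g'` in `G` for which at least `κ X` of the integers `n` in `(X, 4 X]` have the property: for every interval
`(u, v]` with `u ≤ n ≤ v` and `K (log X)^45 ≤ v - u ≤ n` the number of the `p` in `(u, v]` with `SiftedPair` (sifting
limit `X ^ k`) is between `c (v - u) / (log X)^45` and `C (v - u) / (log X)^45`. -/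
theorem result :
    (∀ M a : ℕ, 0 < M → 2 ∣ M → a.Coprime M → ∃ c K κ : ℝ, 0 < c ∧ 0 < K ∧ 0 < κ ∧
      ∀ᶠ X : ℕ in Filter.atTop, ∃ j : ℕ, 1 ≤ j ∧ j ≤ 106 ∧
        κ * X ≤ (Set.ncard {n : ℕ | X < n ∧ n ≤ 4 * X ∧ ∀ u v : ℕ, u ≤ n → n ≤ v →
          K * Real.log X ^ 45 ≤ (v : ℝ) - u → (v : ℝ) - u ≤ n →
            c * (((v : ℝ) - u) / Real.log X ^ 45) ≤ (count (Pair M a (j * M)) u v : ℝ)} : ℝ)) ∧
    ∃ k : ℝ, 0 < k ∧ ∀ (M a : ℕ), 0 < M → a.Coprime M → ∀ (G : Finset ℕ), G.card = 45 →
      (∀ p : ℕ, p.Prime → ¬ p ∣ M → ∃ r : ℕ, ∀ g ∈ G, ¬ p ∣ r + g) →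
      ∃ c C K κ : ℝ, 0 < c ∧ 0 < C ∧ 0 < K ∧ 0 < κ ∧ ∀ᶠ X : ℕ in Filter.atTop, ∃ g ∈ G, ∃ g' ∈ G, g < g' ∧
        κ * X ≤ (Set.ncard {n : ℕ | X < n ∧ n ≤ 4 * X ∧ ∀ u v : ℕ, u ≤ n → n ≤ v →
          K * Real.log X ^ 45 ≤ (v : ℝ) - u → (v : ℝ) - u ≤ n →
            c * (((v : ℝ) - u) / Real.log X ^ 45) ≤ (count (SiftedPair M a G g g' ((X : ℝ) ^ k)) u v : ℝ) ∧
            (count (SiftedPair M a G g g' ((X : ℝ) ^ k)) u v : ℝ) ≤ C * (((v : ℝ) - u) / Real.log X ^ 45)} : ℝ) := by
  refine ⟨fun M a hM hM2 ha => ?_, Pool.Agent.X34.E.nb_gaps' Pool.Agent.X34.E.dhl45R⟩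
  exact Pool.Agent.X34.E.nb_even Pool.Agent.X34.E.dhl45R M a hM hM2 ha

end Pool.Agent.Results.MP_92ef0c_nt.AllWindows
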