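import Pool.Agent.X69.Ric.Pack

/-!
The pairs `(m, m + 2 d)`, `m = q n + a`, in an arithmetic progression, without small prime factors. Additive energy and pair correlations of the multiples.
-/

set_option autoImplicit false

namespace Pool.Agent.Results.MP_92ef0c_nt.PairCorrelations

open Filter MeasureTheory

/-- The pair `(q n + a, q n + a + 2 d)`. -/
def f (q a d n : ℕ) : Fin 2 → ℕ := ![q * n + a, q * n + a + 2 * d]

/-- `Many g A`: for some `c > 0` and all large `X`, the set `A` has at least `c X / (log X) ^ g` elements in `[1, X]`. -/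
def Many (g : ℕ) (A : Set ℕ) : Prop :=
  ∃ c : ℝ, 0 < c ∧ ∀ᶠ X : ℕ in atTop, c * X / Real.log X ^ g ≤ ((A ∩ Set.Icc 1 X).ncard : ℝ)

/-- No prime factor of a component of `f n` is less than `n ^ δ`. -/
def Rough {g : ℕ} (f : ℕ → Fin g → ℕ) (δ : ℝ) (n : ℕ) : Prop :=
  ∀ i, ∀ p : ℕ, p.Prime → p ∣ f n i → (n : ℝ) ^ δ ≤ p

/-- The `n ≥ 1` such that all the components of `f n` have at most `r` prime factors, counted with multiplicity,
none of them less than `n ^ (1 / r)`. -/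
def Almost {g : ℕ} (f : ℕ → Fin g → ℕ) (r : ℕ) : Set ℕ :=
  {n | 1 ≤ n ∧ ∀ i, ArithmeticFunction.cardFactors (f n i) ≤ r ∧
    ∀ p : ℕ, p.Prime → p ∣ f n i → (n : ℝ) ^ (1 / (r : ℝ)) ≤ p}

/-- The additive energy of the first `N` elements of `A = {a 0 < a 1 < ...}`: the number of the quadruples
`(i, j, k, l)` of indices below `N` with `a i + a j = a k + a l`. -/
noncomputable def energy (A : Set ℕ) (N : ℕ) : ℕ :=
  (((Finset.range N ×ˢ Finset.range N) ×ˢ (Finset.range N ×ˢ Finset.range N)).filter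
    (fun p => Nat.nth (· ∈ A) p.1.1 + Nat.nth (· ∈ A) p.1.2 =
      Nat.nth (· ∈ A) p.2.1 + Nat.nth (· ∈ A) p.2.2)).card

/-- The multiples `a 0 α, a 1 α, ...` of `α` by the elements of `A` have Poissonian pair correlations modulo one:
for every `s > 0` the number of the pairs `(k, l)` of distinct indices below `N` with `‖a k α - a l α‖ < s / N`
(distance to the nearest integer), divided by `N`, tends to `2 s`. -/
def Poissonian (A : Set ℕ) (α : ℝ) : Prop := ∀ s : ℝ, 0 < s →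
  Tendsto (fun N : ℕ => (1 / (N : ℝ)) * ((((Finset.range N) ×ˢ (Finset.range N)).filter
    (fun p => p.1 ≠ p.2 ∧
      |(Nat.nth (· ∈ A) p.1 : ℝ) * α - (Nat.nth (· ∈ A) p.2 : ℝ) * α -
        round ((Nat.nth (· ∈ A) p.1 : ℝ) * α - (Nat.nth (· ∈ A) p.2 : ℝ) * α)| < s / N)).card : ℝ))
    atTop (nhds (2 * s))

theorem result : ∀ q a d : ℕ, 3 ≤ q → 1 ≤ d → Nat.Coprime a q → Nat.Coprime (a + 2 * d) q →
    (∀ A : Set ℕ, ∀ δ : ℝ, 0 < δ → (∀ n ∈ A, Rough (f q a d) δ n) → Many 2 A →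
      (∃ C : ℝ, 0 < C ∧ ∀ᶠ N : ℕ in atTop, (energy A N : ℝ) ≤ C * ((N : ℝ) ^ 3 / Real.log N ^ 2)) ∧
      ∀ᵐ α : ℝ, Poissonian A α) ∧
    ∃ r : ℕ, 1 ≤ r ∧ Many 2 (Almost (f q a d) r) ∧ ∀ᵐ α : ℝ, Poissonian (Almost (f q a d) r) α := by
  intro q a d hq hd h1 h2
  refine Pool.Agent.X69.Ric.pack_ppc (by omega) (a := ![(q : ℤ), (q : ℤ)]) (b := ![(a : ℤ), (a : ℤ) + 2 * (d : ℤ)]) (f := f q a d) ?_ ?_ ?_ ?_
  · intro i
    fin_cases i <;> simp <;> omega
  · intro i j hij
    have hq0 : (0 : ℤ) < q := by exact_mod_cast (by omega : 0 < q)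
    have hd0 : (0 : ℤ) < d := by exact_mod_cast hd
    have hqd : (0 : ℤ) < q * d := mul_pos hq0 hd0
    fin_cases i <;> fin_cases j
    · exact absurd rfl hij
    · show (q : ℤ) * ((a : ℤ) + 2 * d) ≠ q * a
      intro h
      linarith
    · show (q : ℤ) * a ≠ q * ((a : ℤ) + 2 * d)
      intro h
      linarith
    · exact absurd rfl hij
  · intro p hp
    have hnd : ∀ c : ℕ, Nat.Coprime c q → p ∣ q → ¬ (p : ℤ) ∣ (c : ℤ) := by
      intro c hc hpq h
      have h3 : p ∣ c := by exact_mod_cast h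
      exact hp.one_lt.ne' (Nat.dvd_one.1 (hc ▸ Nat.dvd_gcd h3 hpq))
    by_cases hpq : p ∣ q
    · refine ⟨0, ?_⟩
      rw [Fin.forall_fin_two]
      refine ⟨?_, ?_⟩
      · simpa using hnd a h1 hpq
      · have h3 := hnd (a + 2 * d) h2 hpq
        push_cast at h3
        simpa using h3
    rcases eq_or_ne p 2 with rfl | hp2
    · refine ⟨(a : ℤ) + 1, ?_⟩
      have hq2 : (q : ℤ) % 2 = 1 := by omega
      have h3 : ((q : ℤ) * ((a : ℤ) + 1) + a) % 2 = 1 := by
        rw [Int.add_emod, Int.mul_emod, hq2]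
        omega
      rw [Fin.forall_fin_two]
      refine ⟨?_, ?_⟩
      · show ¬ ((2 : ℕ) : ℤ) ∣ (q : ℤ) * ((a : ℤ) + 1) + a
        push_cast
        omega
      · show ¬ ((2 : ℕ) : ℤ) ∣ (q : ℤ) * ((a : ℤ) + 1) + ((a : ℤ) + 2 * d)
        push_cast
        omega
    · refine Pool.Agent.X69.Ric.adm_large _ _ p hp (by have := hp.two_le; omega) ?_
      intro i h
      have h3 : ((![(q : ℤ), (q : ℤ)] : Fin 2 → ℤ) i) = q := by fin_cases i <;> rfl
      have h4 := h.1
      rw [h3] at h4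
      exact hpq (by exact_mod_cast h4)
  · intro n hn i
    fin_cases i <;> simp [f]
    ring

end Pool.Agent.Results.MP_92ef0c_nt.PairCorrelations
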