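import Mathlib
import Pool.Agent.Y879.AP.Mean2
import Pool.Agent.Y879.GL.Prog2
import Pool.Agent.Y879.GL.Pattern
import Pool.Agent.X262.Pois

set_option autoImplicit false

/-!
# The Poisson law for almost prime pairs in the residue classes modulo `q`
-/

namespace Pool.Agent.Results.MP_92ef0c_nt.PoissonAlmostPrimePairs

open Finset Filter

/-- `m` is almost prime (relative to `X`): all its prime factors are larger than `X ^ (1 / r)`. -/
def AlmostPrime (X r : ℕ) (m : ℤ) : Prop := ∀ p : ℕ, p.Prime → (p : ℤ) ∣ m → (X : ℝ) ^ (1 / (r : ℝ)) < p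

/-- `m` and `e m + f` are almost prime. -/
def Pair (X r : ℕ) (e f : ℤ) (m : ℕ) : Prop := AlmostPrime X r m ∧ AlmostPrime X r (e * m + f)

/-- The number of the almost prime pairs `(m, e m + f)`, where `m` is one of the `T` terms
`b + q (H + 1), …, b + q (H + T)` of the residue class of `b` modulo `q`. -/
noncomputable def number (X r : ℕ) (e f : ℤ) (q H T b : ℕ) : ℕ :=
  {h : ℕ | H < h ∧ h ≤ H + T ∧ Pair X r e f (b + q * h)}.ncard

/-- the class of `b` modulo `q` is admissible: `b` and `e b + f` are prime to `q` -/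
def Admissible (e f : ℤ) (q b : ℕ) : Prop := IsCoprime ((b : ℤ) * (e * b + f)) (q : ℤ)

/-- the number of the classes modulo the prime `p` forbidden for a pair -/
noncomputable def nu (f : ℤ) (p : ℕ) : ℝ := by
  classical
  exact if (p : ℤ) ∣ f then 1 else 2

/-- the proportion of the admissible classes modulo `q` -/
noncomputable def prop (f : ℤ) (q : ℕ) : ℝ := ∏ p ∈ q.primeFactors, (1 - nu f p / p)

/-- the density of the pairs in every admissible class modulo `q` -/
noncomputable def density (X r : ℕ) (f : ℤ) (q : ℕ) : ℝ :=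
  ∏ p ∈ (Icc 1 ⌊(X : ℝ) ^ (1 / (r : ℝ))⌋₊).filter (fun p => p.Prime ∧ ¬ p ∣ q), (1 - nu f p / p)

/-- the singular series of the pairs, truncated at `X ^ (1 / r)` -/
noncomputable def series (X r : ℕ) (f : ℤ) : ℝ :=
  ∏ p ∈ (Icc 1 ⌊(X : ℝ) ^ (1 / (r : ℝ))⌋₊).filter Nat.Prime,
    (1 - nu f p / p) / (1 - 1 / (p : ℝ)) ^ 2

open Pool.Agent.Y879.AP Pool.Agent.W123.RP Pool.Agent.H373R2.T7 Pool.Agent.TH464.PO Pool.Agent.X262.Pois
open Pool.Agent.Y879.GL

lemma nu_eq (f : ℤ) (p : ℕ) : nu f p = nu2 f p := by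
  unfold nu nu2
  split_ifs <;> simp

lemma density_eq (X r : ℕ) (e f : ℤ) (he : e * e = 1) (q : ℕ) :
    density X r f q = Vq (Qn (Q2 e f) q) ⌊(X : ℝ) ^ (1 / (r : ℝ))⌋₊ := by
  unfold density Vq
  rw [← Finset.filter_filter, Finset.prod_filter]
  unfold pz
  refine Finset.prod_congr rfl fun p hp => ?_
  have hpp := (mem_filter.1 hp).2
  by_cases hd : p ∣ q
  · rw [if_neg (by simpa using hd), nuB_Qn_dvd _ _ _ hd]
    simp
  · rw [if_pos hd, nuB_Qn_not _ _ _ hd, nuB_Q2 e f he p hpp, nu_eq]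

lemma prop_eq (e f : ℤ) (he : e * e = 1) (q : ℕ) : prop f q = RD (Q2 e f) q := by
  unfold prop RD
  refine Finset.prod_congr rfl fun p hp => ?_
  rw [nuB_Q2 e f he p (Nat.prime_of_mem_primeFactors hp), nu_eq]

lemma series_eq (X r : ℕ) (e f : ℤ) (he : e * e = 1) :
    series X r f = SS (Q2 e f) 2 ⌊(X : ℝ) ^ (1 / (r : ℝ))⌋₊ := by
  unfold series SS pz
  refine Finset.prod_congr rfl fun p hp => ?_
  rw [nuB_Q2 e f he p (mem_filter.1 hp).2, nu_eq]

lemma adm_iff (e f : ℤ) (q b : ℕ) : Admissible e f q b ↔ Red (Q2 e f) q b := by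
  unfold Admissible Red Q2
  rw [Int.isCoprime_iff_nat_coprime, Int.natAbs_natCast, Nat.coprime_iff_gcd_eq_one]
  constructor
  · intro h p hp hpq hd
    have h1 : p ∣ ((b : ℤ) * (e * b + f)).natAbs := Int.natCast_dvd.1 hd
    have h2 : p ∣ Nat.gcd ((b : ℤ) * (e * b + f)).natAbs q := Nat.dvd_gcd h1 hpq
    rw [h] at h2
    exact hp.one_lt.ne' (Nat.dvd_one.1 h2)
  · intro h
    by_contra hne
    obtain ⟨p, hp, hpd⟩ := Nat.exists_prime_and_dvd hne
    exact h p hp (hpd.trans (Nat.gcd_dvd_right _ _))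
      (Int.natCast_dvd.2 (hpd.trans (Nat.gcd_dvd_left _ _)))

lemma pair_iff (X r : ℕ) (e f : ℤ) (m : ℕ) :
    Pair X r e f m ↔ Sf (Q2 e f) ⌊(X : ℝ) ^ (1 / (r : ℝ))⌋₊ m := by
  unfold Pair AlmostPrime Sf Q2
  constructor
  · rintro ⟨h1, h2⟩ p hp hd
    have hpp := (mem_pz.1 hp).2
    have h3 : (p : ℝ) ≤ (X : ℝ) ^ (1 / (r : ℝ)) := (Nat.le_floor_iff (by positivity)).1 (mem_pz.1 hp).1
    rcases (Nat.prime_iff_prime_int.1 hpp).dvd_or_dvd hd with h | h
    · linarith [h1 p hpp h]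
    · linarith [h2 p hpp h]
  · intro h
    constructor
    · intro p hp hd
      by_contra hlt
      exact h p (mem_pz.2 ⟨Nat.le_floor (not_lt.1 hlt), hp⟩) (Dvd.dvd.mul_right hd _)
    · intro p hp hd
      by_contra hlt
      exact h p (mem_pz.2 ⟨Nat.le_floor (not_lt.1 hlt), hp⟩) (Dvd.dvd.mul_left hd _)

lemma number_eq (X r : ℕ) (e f : ℤ) (q H T b : ℕ) :
    number X r e f q H T b = Ws (Q2 e f) q ⌊(X : ℝ) ^ (1 / (r : ℝ))⌋₊ T (b + q * H) := by
  classical
  unfold number Ws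
  rw [← Set.ncard_coe_finset]
  symm
  apply Set.ncard_congr (fun h _ => h + H)
  · intro h hh
    simp only [coe_filter, mem_Icc, Set.mem_ofPred_eq] at hh ⊢
    refine ⟨by omega, by omega, ?_⟩
    rw [pair_iff, show b + q * (h + H) = b + q * H + q * h by ring]
    exact hh.2
  · intro a b _ _ h
    simpa using h
  · intro h hh
    simp only [Set.mem_ofPred_eq] at hh
    refine ⟨h - H, ?_, by omega⟩
    simp only [coe_filter, mem_Icc, Set.mem_ofPred_eq]
    refine ⟨by omega, ?_⟩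
    rw [show b + q * H + q * (h - H) = b + q * h by
      obtain ⟨k, rfl⟩ : ∃ k, h = H + k := ⟨h - H, by omega⟩
      rw [Nat.add_sub_cancel_left]
      ring, ← pair_iff]
    exact hh.2.2

lemma red_shift (e f : ℤ) (q b s : ℕ) : Red (Q2 e f) q (b + q * s) ↔ Red (Q2 e f) q b := by
  unfold Red
  refine forall_congr' fun p => forall_congr' fun hp => forall_congr' fun hpq => not_congr ?_
  rw [Q2_per, Q2_per e f p b]
  obtain ⟨k, hk⟩ := hpq
  rw [hk, mul_assoc, Nat.add_mul_mod_self_left]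

lemma shift_card (e f : ℤ) (q Z Y s : ℕ) (P : ℕ → Prop)
    (i1 : DecidablePred fun b : ℕ => Red (Q2 e f) q b ∧ P (b + q * s))
    (i2 : DecidablePred fun b : ℕ => Red (Q2 e f) q b ∧ P b) :
    ((Ioc Z (Z + Y)).filter (fun b => Red (Q2 e f) q b ∧ P (b + q * s))).card =
      ((Ioc (Z + q * s) (Z + q * s + Y)).filter (fun b => Red (Q2 e f) q b ∧ P b)).card := by
  apply Finset.card_bij (fun b _ => b + q * s)
  · intro b hb
    rw [mem_filter, mem_Ioc] at hb ⊢
    exact ⟨by omega, (red_shift e f q b s).2 hb.2.1, hb.2.2⟩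
  · intro a _ b _ h
    exact Nat.add_right_cancel h
  · intro b hb
    rw [mem_filter, mem_Ioc] at hb
    refine ⟨b - q * s, ?_, by omega⟩
    have h1 : b - q * s + q * s = b := by omega
    rw [mem_filter, mem_Ioc, h1]
    refine ⟨by omega, ?_, hb.2.2⟩
    rw [← red_shift e f q (b - q * s) s, h1]
    exact hb.2.1

lemma few (X r B m : ℕ) (hX : 2 ≤ X) (hr : 1 ≤ r) (hm : 1 ≤ m) (hmB : m ≤ X ^ B)
    (h : AlmostPrime X r m) : m.primeFactorsList.length ≤ r * B := by
  have hq1 : (1 : ℝ) < X := by exact_mod_cast (by omega : 1 < X)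
  have hr0 : (0 : ℝ) < r := by exact_mod_cast (by omega : 0 < r)
  refine Pool.Agent.Y879.GL.few_of_rough ((X : ℝ) ^ (1 / (r : ℝ)))
    (Real.one_lt_rpow hq1 (by positivity)) m (r * B) (by omega) ?_
    (fun p hp hd => h p hp (Int.natCast_dvd_natCast.2 hd))
  have h1 : ((X : ℝ) ^ (1 / (r : ℝ))) ^ (r * B) = (X : ℝ) ^ B := by
    rw [pow_mul, ← Real.rpow_natCast ((X : ℝ) ^ (1 / (r : ℝ))) r, ← Real.rpow_mul (by linarith)]
    rw [one_div, inv_mul_cancel₀ hr0.ne', Real.rpow_one]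
  rw [h1]
  exact_mod_cast hmB

open Classical in
/-- **The Poisson law for almost prime pairs in the residue classes modulo `q`.** Let `A, δ, θ, ε > 0`
and `x₀` be given. There is `r₀` such that for all `r ≥ r₀` and all large `X` the following holds for
`e = 1` (pairs `m`, `m + f`) and for `e = -1` (pairs `m`, `f - m`), all moduli `1 ≤ q ≤ X ^ A`, all even
`f ≠ 0` with `|f| ≤ X ^ A` which are not of the form `± q t` with `1 ≤ t ≤ X ^ δ` (as for `q > |f|`), all
`H` and all intervals `(Z, Z + Y]` with `Y ≥ X ^ θ`; `V = density X r f q`. The number of the admissible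
`b` in the interval is `Y * prop f q`, and for these `b` (up to the proportion `ε`)

(1) for `0 ≤ u ≤ x₀` the number of the pairs among the `⌊u / V⌋` terms of the progression of `b` after
`b + q H` has the Poisson distribution of mean `u`;

(2) for all `u ≥ 0` the proportion of the `b` for which there is no pair among the `⌊u / V⌋` terms of the
progression after `b + q H` is `exp (-u)`.

(3) The density `V` is `(r exp (-γ)) ² series X r f / (prop f q * log² X)` asymptotically, uniformly.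

(4) Almost primes below `X ^ B` have at most `r B` prime factors. -/
theorem result (A δ θ x₀ ε : ℝ) (hA : 0 < A) (hδ : 0 < δ) (hθ : 0 < θ) (hε : 0 < ε) :
    (∃ r₀ : ℕ, 2 ≤ r₀ ∧ ∀ r : ℕ, r₀ ≤ r → ∀ᶠ X : ℕ in atTop, ∀ (e f : ℤ) (q : ℕ),
      (e = 1 ∨ e = -1) → Even f → f ≠ 0 → |(f : ℝ)| ≤ (X : ℝ) ^ A → 1 ≤ q → (q : ℝ) ≤ (X : ℝ) ^ A →
      (∀ t : ℕ, 1 ≤ t → (t : ℝ) ≤ (X : ℝ) ^ δ → |f| ≠ q * t) →
      ∀ Z Y H : ℕ, (X : ℝ) ^ θ ≤ Y →
      |(((Ioc Z (Z + Y)).filter (fun b => Admissible e f q b)).card : ℝ) - Y * prop f q| ≤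
        ε * (Y * prop f q) ∧
      (∀ u : ℝ, 0 ≤ u → u ≤ x₀ → ∀ S : Finset ℕ,
        |(((Ioc Z (Z + Y)).filter
            (fun b => Admissible e f q b ∧ number X r e f q H ⌊u / density X r f q⌋₊ b ∈ S)).card : ℝ) -
          Y * prop f q * ∑ j ∈ S, Real.exp (-u) * u ^ j / j.factorial| ≤ ε * (Y * prop f q)) ∧
      (∀ u : ℝ, 0 ≤ u →
        |(((Ioc Z (Z + Y)).filter
            (fun b => Admissible e f q b ∧ number X r e f q H ⌊u / density X r f q⌋₊ b = 0)).card : ℝ) -
          Y * prop f q * Real.exp (-u)| ≤ ε * (Y * prop f q))) ∧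
    (∀ r : ℕ, 2 ≤ r → ∀ᶠ X : ℕ in atTop, ∀ (f : ℤ) (q : ℕ), Even f → 1 ≤ q → (q : ℝ) ≤ (X : ℝ) ^ A →
      |density X r f q * prop f q * Real.log X ^ 2 -
        (r * Real.exp (-Real.eulerMascheroniConstant)) ^ 2 * series X r f| ≤ ε * series X r f) ∧
    (∀ X r B m : ℕ, 2 ≤ X → 1 ≤ r → 1 ≤ m → m ≤ X ^ B → AlmostPrime X r m →
      m.primeFactorsList.length ≤ r * B) := by
  refine ⟨?_, ?_, fun X r B m hX hr hm hmB h => few X r B m hX hr hm hmB h⟩
  swap
  · intro r hr
    filter_upwards [mean_gen 2 2 A hA r hr ε hε] with X hX f q hf hq hqX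
    have h := hX (Q2 1 f) q (perB_Q2 1 f (by norm_num)) (adm_Q2 1 f (by norm_num) hf) hq hqX
    rw [density_eq X r 1 f (by norm_num) q, prop_eq 1 f (by norm_num) q,
      series_eq X r 1 f (by norm_num)]
    exact h
  obtain ⟨x1, hx1⟩ : ∃ x1 : ℝ, x1 = max (max x₀ (Real.log (4 / ε))) 0 := ⟨_, rfl⟩
  have hx10 : 0 ≤ x1 := by rw [hx1]; exact le_max_right _ _
  have hx11 : x₀ ≤ x1 := by rw [hx1]; exact (le_max_left _ _).trans (le_max_left _ _)
  have hx12 : Real.log (4 / ε) ≤ x1 := by rw [hx1]; exact (le_max_right _ _).trans (le_max_left _ _)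
  have hexp : Real.exp (-x1) ≤ ε / 4 := by
    calc Real.exp (-x1) ≤ Real.exp (-Real.log (4 / ε)) := Real.exp_le_exp.2 (by linarith)
      _ = ε / 4 := by rw [Real.exp_neg, Real.exp_log (by positivity), inv_div]
  obtain ⟨r0, hr0, hlaw⟩ := pair_law A δ θ (x1 + 1) (ε / 4) hA hδ hθ (by positivity)
  refine ⟨r0, hr0, ?_⟩
  intro r hr
  have hr2 : 2 ≤ r := hr0.trans hr
  obtain ⟨M, hM, hVup⟩ := pf_Vup A hA r hr2
  have hlog : Tendsto (fun X : ℕ => Real.log (X : ℝ)) atTop atTop :=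
    Real.tendsto_log_atTop.comp tendsto_natCast_atTop_atTop
  filter_upwards [hlaw r hr, hVup, hlog.eventually_ge_atTop (M / min (ε / 4) 1),
    hlog.eventually_gt_atTop 0] with X hL hVX hX1 hX2
  intro e f q he1 hf hf0 hfX hq hqX hne Z Y H hY
  have he : e * e = 1 := by rcases he1 with rfl | rfl <;> norm_num
  obtain ⟨V, hV⟩ : ∃ V, V = density X r f q := ⟨_, rfl⟩
  have hV' : V = Vq (Qn (Q2 e f) q) ⌊(X : ℝ) ^ (1 / (r : ℝ))⌋₊ := by rw [hV, density_eq X r e f he q]
  have hV0 : 0 < V := by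
    rw [hV']
    exact Vq_pos _ (adm_Qn _ (adm_Q2 e f he hf) q) _
  have hVη : V ≤ min (ε / 4) 1 := by
    rw [hV']
    refine (hVX e f q he hf hf0 hfX hq hqX).trans ?_
    rw [div_le_iff₀ hX2]
    have h0 : 0 < min (ε / 4) (1 : ℝ) := by positivity
    rw [div_le_iff₀ h0] at hX1
    linarith
  obtain ⟨W, hW⟩ : ∃ W : ℝ, W = Y * prop f q := ⟨_, rfl⟩
  have hW' : W = Y * RD (Q2 e f) q := by rw [hW, prop_eq e f he q]
  have hW0 : 0 ≤ W := by
    rw [hW]
    apply mul_nonneg (Nat.cast_nonneg _)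
    unfold prop
    apply Finset.prod_nonneg
    intro p hp
    have h1 := adm_Q2 e f he hf p (Nat.prime_of_mem_primeFactors hp)
    rw [nuB_Q2 e f he p (Nat.prime_of_mem_primeFactors hp)] at h1
    have h2 : (0 : ℝ) < p := by exact_mod_cast (Nat.prime_of_mem_primeFactors hp).pos
    rw [nu_eq, sub_nonneg, div_le_one h2]
    exact_mod_cast h1.le
  have hpois : ∀ u : ℝ, 0 ≤ u → u ≤ x1 → ∀ S : Finset ℕ,
      |(((Ioc Z (Z + Y)).filter
          (fun b => Admissible e f q b ∧ number X r e f q H ⌊u / V⌋₊ b ∈ S)).card : ℝ) -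
        W * ∑ j ∈ S, Real.exp (-u) * u ^ j / j.factorial| ≤ ε / 2 * W := by
    intro u hu0 hu1 S
    obtain ⟨T, hT⟩ : ∃ T, T = ⌊u / V⌋₊ := ⟨_, rfl⟩
    rw [← hT]
    have hT1 : (T : ℝ) * V ≤ u := by
      rw [← le_div_iff₀ hV0, hT]
      exact Nat.floor_le (by positivity)
    have hT2 : u ≤ T * V + V := by
      have h1 : u / V < T + 1 := by rw [hT]; exact Nat.lt_floor_add_one _
      rw [div_lt_iff₀ hV0] at h1
      linarith
    have h1 : |(T : ℝ) * V - u| ≤ min (ε / 4) 1 := by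
      rw [abs_le]
      constructor
      · linarith
      · have : 0 < min (ε / 4) (1 : ℝ) := by positivity
        linarith
    have h2 := hL e f q he hf hf0 hfX hq hqX (by
      intro t ht1 ht2 h
      apply hne t ht1 ht2
      have h3 := (sq_eq_sq_iff_abs_eq_abs f ((q : ℤ) * t)).1 h
      rw [h3]
      exact abs_of_nonneg (by positivity)) (Z + q * H) Y hY T
    rw [← hV'] at h2
    have h3 := h2 (by linarith) S
    rw [← shift_card e f q Z Y H (fun b => Ws (Q2 e f) q ⌊(X : ℝ) ^ (1 / (r : ℝ))⌋₊ T b ∈ S)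
      (by infer_instance), ← hW'] at h3
    have h5 := po_lip S (T * V) u (by positivity) hu0
    unfold po at h5
    have h6 : |W * (∑ j ∈ S, Real.exp (-(T * V)) * (T * V) ^ j / j.factorial) -
        W * (∑ j ∈ S, Real.exp (-u) * u ^ j / j.factorial)| ≤ W * (ε / 4) := by
      rw [← mul_sub, abs_mul, abs_of_nonneg hW0]
      apply mul_le_mul_of_nonneg_left _ hW0
      exact h5.trans (h1.trans (min_le_left _ _))
    have h7 : ((Ioc Z (Z + Y)).filter
        (fun b => Admissible e f q b ∧ number X r e f q H T b ∈ S)) =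
        ((Ioc Z (Z + Y)).filter (fun b => Red (Q2 e f) q b ∧
          Ws (Q2 e f) q ⌊(X : ℝ) ^ (1 / (r : ℝ))⌋₊ T (b + q * H) ∈ S)) := by
      apply Finset.filter_congr
      intro b _
      rw [number_eq, adm_iff]
    rw [h7]
    have h8 := abs_sub_le (((((Ioc Z (Z + Y)).filter (fun b => Red (Q2 e f) q b ∧
          Ws (Q2 e f) q ⌊(X : ℝ) ^ (1 / (r : ℝ))⌋₊ T (b + q * H) ∈ S)).card : ℕ) : ℝ))
      (W * (∑ j ∈ S, Real.exp (-(T * V)) * (T * V) ^ j / j.factorial))
      (W * (∑ j ∈ S, Real.exp (-u) * u ^ j / j.factorial))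
    linarith
  have hfirst : ∀ u : ℝ, 0 ≤ u → u ≤ x1 →
      |(((Ioc Z (Z + Y)).filter
          (fun b => Admissible e f q b ∧ number X r e f q H ⌊u / V⌋₊ b = 0)).card : ℝ) -
        W * Real.exp (-u)| ≤ ε / 2 * W := by
    intro u hu0 hu1
    have h1 := hpois u hu0 hu1 {0}
    simp only [Finset.sum_singleton, pow_zero, Nat.factorial_zero, Nat.cast_one, mul_one, div_one,
      Finset.mem_singleton] at h1
    exact h1
  rw [← hW, ← hV]
  refine ⟨?_, fun u hu0 hu1 S => (hpois u hu0 (hu1.trans hx11) S).trans (by nlinarith), ?_⟩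
  · have h1 := hfirst 0 le_rfl hx10
    rw [neg_zero, Real.exp_zero, mul_one, zero_div, Nat.floor_zero] at h1
    have h2 : ((Ioc Z (Z + Y)).filter (fun b => Admissible e f q b ∧
        number X r e f q H 0 b = 0)) =
        ((Ioc Z (Z + Y)).filter (fun b => Admissible e f q b)) := by
      apply Finset.filter_congr
      intro b _
      constructor
      · exact fun h => h.1
      · intro h
        refine ⟨h, ?_⟩
        unfold number
        rw [Set.ncard_eq_zero (Set.Finite.subset (Set.finite_Iic (H + 0)) fun h hh => hh.2.1)]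
        ext k
        simp only [Set.mem_ofPred_eq, Set.mem_empty_iff_false, iff_false]
        omega
    rw [h2] at h1
    exact h1.trans (by nlinarith)
  · intro u hu0
    rcases le_or_gt u x1 with hu1 | hu1
    · exact (hfirst u hu0 hu1).trans (by nlinarith)
    · have h1 := hfirst x1 hx10 le_rfl
      have h2 : (((Ioc Z (Z + Y)).filter
          (fun b => Admissible e f q b ∧ number X r e f q H ⌊u / V⌋₊ b = 0)).card : ℝ) ≤
          (((Ioc Z (Z + Y)).filter
          (fun b => Admissible e f q b ∧ number X r e f q H ⌊x1 / V⌋₊ b = 0)).card : ℝ) := by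
        exact_mod_cast Finset.card_le_card (by
          intro b hb
          rw [mem_filter] at hb ⊢
          refine ⟨hb.1, hb.2.1, ?_⟩
          have h3 := hb.2.2
          unfold number at h3 ⊢
          rw [Set.ncard_eq_zero (Set.Finite.subset (Set.finite_Iic (H + ⌊u / V⌋₊)) fun h hh => hh.2.1)] at h3
          rw [Set.ncard_eq_zero (Set.Finite.subset (Set.finite_Iic (H + ⌊x1 / V⌋₊)) fun h hh => hh.2.1)]
          rw [Set.eq_empty_iff_forall_notMem] at h3 ⊢
          intro k hk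
          apply h3 k
          have h4 : ⌊x1 / V⌋₊ ≤ ⌊u / V⌋₊ := Nat.floor_le_floor (by gcongr)
          exact ⟨hk.1, hk.2.1.trans (by omega), hk.2.2⟩)
      have h3 : Real.exp (-u) ≤ ε / 4 := (Real.exp_le_exp.2 (by linarith)).trans hexp
      have h4 := (abs_le.1 h1).2
      have h5 : 0 < Real.exp (-u) := Real.exp_pos _
      have h6 : W * Real.exp (-x1) ≤ W * (ε / 4) := mul_le_mul_of_nonneg_left hexp hW0
      have h7 : W * Real.exp (-u) ≤ W * (ε / 4) := mul_le_mul_of_nonneg_left h3 hW0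
      have h8 : 0 ≤ W * Real.exp (-u) := by positivity
      have h9 : (0 : ℝ) ≤ (((Ioc Z (Z + Y)).filter
          (fun b => Admissible e f q b ∧ number X r e f q H ⌊u / V⌋₊ b = 0)).card : ℝ) := Nat.cast_nonneg _
      rw [abs_le]
      constructor
      · nlinarith
      · nlinarith

end Pool.Agent.Results.MP_92ef0c_nt.PoissonAlmostPrimePairs
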